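import Mathlib
import Pool.Prelude.Def_F_458e953d

namespace Pool.Agent.Work.MP_54ee58_lc

open Classical

variable {V : Type} [Fintype V] (G : SimpleGraph V)

/-- `N(X)`: the vertices adjacent to some vertex of `X`. -/
noncomputable def nbhd (X : Finset V) : Finset V := Finset.univ.filter (fun v => ∃ u ∈ X, G.Adj u v)

/-- `d_G(X) = |X| - |N(X)|`. -/
noncomputable def diff (X : Finset V) : ℤ := (X.card : ℤ) - ((nbhd G X).card : ℤ)

/-- `core(G)`: the intersection of all maximum independent sets. -/
def core : Set V := {v | ∀ S : Finset V, G.IsMaximumIndepSet S → v ∈ S}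

/-- A critical independent set. -/
def IsCritical (I : Finset V) : Prop :=
  G.IsIndepSet (I : Set V) ∧ ∀ J : Finset V, G.IsIndepSet (J : Set V) → diff G J ≤ diff G I

/-- A maximum critical independent set. -/
def IsMaxCritical (I : Finset V) : Prop :=
  IsCritical G I ∧ ∀ J : Finset V, IsCritical G J → J.card ≤ I.card

/-- `nucleus(G)`: the intersection of all maximum critical independent sets. -/
def nucleus : Set V := {v | ∀ I : Finset V, IsMaxCritical G I → v ∈ I}

/-- The adjacency matrix of a graph on `Fin n`, written row by row. -/
noncomputable def adjBits {n : ℕ} (H : SimpleGraph (Fin n)) : List Bool :=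
  (List.finRange n).flatMap (fun i => (List.finRange n).map (fun j => decide (H.Adj i j)))

/-- The decision problem: the input is the adjacency matrix of a graph with `core = nucleus`. -/
noncomputable def CoreEqNucleus : N68a2faeb.DecisionProblem :=
  fun x => decide (∃ (n : ℕ) (H : SimpleGraph (Fin n)), x = adjBits H ∧ core H = nucleus H)

end Pool.Agent.Work.MP_54ee58_lc
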