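import Pool.Agent.Work.MP_54ee58_lc.Defs
import Pool.Agent.Lib.Cx.LSList

-- merged part: Pool.Agent.Work.MP_54ee58_lc.Graph
section
namespace Pool.Agent.Work.MP_54ee58_lc

open Finset

/-- The graph on `Fin n` given by a symmetric Boolean function. -/
def mkG (n : ℕ) (f : ℕ → ℕ → Bool) (hs : ∀ a b, f a b = f b a) (hi : ∀ a, f a a = false) :
    SimpleGraph (Fin n) where
  Adj a b := f a b = true
  symm := ⟨fun a b h => by rw [hs]; exact h⟩
  loopless := ⟨fun a h => by rw [hi] at h; cases h⟩

def matBits (n : ℕ) (f : ℕ → ℕ → Bool) : List Bool :=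
  (List.range n).flatMap (fun i => (List.range n).map (fun j => f i j))

theorem adjBits_mkG (n : ℕ) (f : ℕ → ℕ → Bool) (hs : ∀ a b, f a b = f b a)
    (hi : ∀ a, f a a = false) : adjBits (mkG n f hs hi) = matBits n f := by
  unfold adjBits matBits
  rw [← List.map_coe_finRange_eq_range, List.flatMap_map]
  congr 1
  funext i
  rw [List.map_map]
  congr 1
  funext j
  simp [mkG]

theorem adjBits_length {n : ℕ} (H : SimpleGraph (Fin n)) : (adjBits H).length = n * n := by
  simp [adjBits, List.length_flatMap]

theorem flatMap_inj {α β : Type} (k : ℕ) (f g : α → List β) (hf : ∀ a, (f a).length = k)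
    (hg : ∀ a, (g a).length = k) (l : List α) (h : l.flatMap f = l.flatMap g) :
    ∀ a ∈ l, f a = g a := by
  induction l with
  | nil => simp
  | cons b l ih =>
    rw [List.flatMap_cons, List.flatMap_cons] at h
    obtain ⟨h1, h2⟩ := List.append_inj h (by rw [hf, hg])
    intro a ha
    rcases List.mem_cons.1 ha with rfl | ha
    · exact h1
    · exact ih h2 a ha

theorem adjBits_inj {n : ℕ} (H H' : SimpleGraph (Fin n)) (h : adjBits H = adjBits H') : H = H' := by
  ext i j
  have h1 := flatMap_inj n _ _ (by simp) (by simp) _ h i (List.mem_finRange i)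
  have h2 := List.map_inj_left.1 h1 j (List.mem_finRange j)
  simpa using h2

theorem coreEqNucleus_adjBits {n : ℕ} (H : SimpleGraph (Fin n)) :
    CoreEqNucleus (adjBits H) = true ↔ core H = nucleus H := by
  simp only [CoreEqNucleus, decide_eq_true_eq]
  constructor
  · rintro ⟨n', H', h, h'⟩
    have hn : n = n' := by
      have := congrArg List.length h
      rw [adjBits_length, adjBits_length] at this
      exact Nat.mul_self_inj.1 this
    subst hn
    rw [adjBits_inj _ _ h]
    exact h'
  · intro h
    exact ⟨n, H, rfl, h⟩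

variable {V : Type} [Fintype V] (G : SimpleGraph V)

theorem nucleus_eq_empty
    (h : ∀ I : Finset V, G.IsIndepSet (I : Set V) → I.Nonempty → I.card < (nbhd G I).card) :
    nucleus G = ∅ := by
  have h0 : diff G ∅ = 0 := by simp [diff, nbhd]
  have hc : ∀ J, IsCritical G J → J = ∅ := by
    intro J hJ
    by_contra hne
    have h1 := h J hJ.1 (Finset.nonempty_iff_ne_empty.2 hne)
    have h2 := hJ.2 ∅ (by simp)
    rw [h0, diff] at h2
    omega
  have hE : IsMaxCritical G ∅ := by
    refine ⟨⟨by simp, fun J hJ => ?_⟩, fun J hJ => by rw [hc J hJ]⟩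
    rw [h0]
    rcases J.eq_empty_or_nonempty with rfl | hne
    · rw [h0]
    · have := h J hJ hne
      rw [diff]
      omega
  ext v
  simp only [nucleus, Set.mem_ofPred_eq, Set.mem_empty_iff_false, iff_false]
  intro hv
  simpa using hv ∅ hE

theorem core_eq_empty (S T : Finset V) (hS : G.IsMaximumIndepSet S) (hT : G.IsMaximumIndepSet T)
    (hd : Disjoint S T) : core G = ∅ := by
  ext v
  simp only [core, Set.mem_ofPred_eq, Set.mem_empty_iff_false, iff_false]
  intro hv
  exact Finset.disjoint_left.1 hd (hv S hS) (hv T hT)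

/-! Literal graphs of 3-CNF formulas. -/

abbrev CNF := List (List (ℕ × Bool))

def Sat (φ : CNF) : Prop := ∃ A : ℕ → Bool, ∀ c ∈ φ, ∃ l ∈ c, A l.1 = l.2

def lit (φ : CNF) (a : ℕ) : ℕ × Bool := (φ.getD (a / 3) []).getD (a % 3) (0, false)

def adjG (φ : CNF) (a b : ℕ) : Bool :=
  decide (a / 3 = b / 3) || (decide ((lit φ a).1 = (lit φ b).1) && !decide ((lit φ a).2 = (lit φ b).2))

theorem adjG_symm (φ : CNF) (a b : ℕ) : adjG φ a b = adjG φ b a := by
  simp only [adjG, eq_comm]

def Good (φ : CNF) (T : Finset ℕ) : Prop :=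
  (∀ a ∈ T, a < 3 * φ.length) ∧ ∀ a ∈ T, ∀ b ∈ T, a ≠ b → adjG φ a b = false

theorem good_injOn {φ : CNF} {T : Finset ℕ} (h : Good φ T) :
    Set.InjOn (fun a => a / 3) (T : Set ℕ) := by
  intro a ha b hb hab
  by_contra hne
  have := h.2 a ha b hb hne
  simp only at hab
  simp [adjG, hab] at this

theorem good_card_le {φ : CNF} {T : Finset ℕ} (h : Good φ T) : T.card ≤ φ.length := by
  rw [← Finset.card_range φ.length]
  refine Finset.card_le_card_of_injOn (fun a => a / 3) ?_ (good_injOn h)
  intro a ha
  have := h.1 a ha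
  simp only [Finset.coe_range, Set.mem_Iio]
  omega

theorem good_sat {φ : CNF} (h3 : ∀ c ∈ φ, c.length = 3) {T : Finset ℕ} (h : Good φ T)
    (hc : φ.length ≤ T.card) : Sat φ := by
  classical
  have himg : T.image (fun a => a / 3) = Finset.range φ.length := by
    apply Finset.eq_of_subset_of_card_le
    · intro x hx
      obtain ⟨a, ha, rfl⟩ := Finset.mem_image.1 hx
      have := h.1 a ha
      simp only [Finset.mem_range]
      omega
    · rw [Finset.card_image_of_injOn (good_injOn h), Finset.card_range]
      exact hc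
  refine ⟨fun x => decide (∃ a ∈ T, lit φ a = (x, true)), fun c hcφ => ?_⟩
  obtain ⟨i, hi, rfl⟩ := List.getElem_of_mem hcφ
  have : i ∈ T.image (fun a => a / 3) := by rw [himg]; exact Finset.mem_range.2 hi
  obtain ⟨a, ha, rfl⟩ := Finset.mem_image.1 this
  have hlen := h3 _ hcφ
  have hm : a % 3 < (φ[a / 3]).length := by omega
  have hl : lit φ a = (φ[a / 3])[a % 3] := by
    simp [lit, List.getD_eq_getElem?_getD, hi, hm]
  refine ⟨lit φ a, hl ▸ List.getElem_mem hm, ?_⟩
  cases hb : (lit φ a).2 with
  | true =>
    simp only [decide_eq_true_eq]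
    exact ⟨a, ha, Prod.ext rfl hb⟩
  | false =>
    simp only [decide_eq_false_iff_not]
    rintro ⟨b, hbT, hbl⟩
    have hne : a ≠ b := by
      rintro rfl
      rw [hbl] at hb
      cases hb
    have := h.2 a ha b hbT hne
    simp [adjG, hbl, hb] at this

theorem sat_good {φ : CNF} (h3 : ∀ c ∈ φ, c.length = 3) (h : Sat φ) :
    ∃ T, Good φ T ∧ T.card = φ.length := by
  classical
  obtain ⟨A, hA⟩ := h
  have : ∀ i, ∃ r, r < 3 ∧ (i < φ.length → A (lit φ (3 * i + r)).1 = (lit φ (3 * i + r)).2) := by
    intro i
    by_cases hi : i < φ.length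
    · obtain ⟨l, hl, hAl⟩ := hA φ[i] (List.getElem_mem hi)
      obtain ⟨r, hr, rfl⟩ := List.getElem_of_mem hl
      have hlen := h3 _ (List.getElem_mem hi)
      refine ⟨r, by omega, fun _ => ?_⟩
      have e1 : (3 * i + r) / 3 = i := by omega
      have e2 : (3 * i + r) % 3 = r := by omega
      have : lit φ (3 * i + r) = (φ[i])[r] := by
        simp [lit, List.getD_eq_getElem?_getD, e1, e2, hi, hr]
      rw [this]
      exact hAl
    · exact ⟨0, by omega, fun h => absurd h hi⟩
  choose r hr3 hr using this
  refine ⟨(Finset.range φ.length).image (fun i => 3 * i + r i), ⟨?_, ?_⟩, ?_⟩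
  · intro a ha
    obtain ⟨i, hi, rfl⟩ := Finset.mem_image.1 ha
    have := hr3 i
    have := Finset.mem_range.1 hi
    omega
  · intro a ha b hb hne
    obtain ⟨i, hi, rfl⟩ := Finset.mem_image.1 ha
    obtain ⟨j, hj, rfl⟩ := Finset.mem_image.1 hb
    have a1 := hr3 i
    have a2 := hr3 j
    have b1 := hr i (Finset.mem_range.1 hi)
    have b2 := hr j (Finset.mem_range.1 hj)
    have hij : i ≠ j := by rintro rfl; exact hne rfl
    have e : ¬ ((3 * i + r i) / 3 = (3 * j + r j) / 3) := by omega
    simp only [adjG, e, decide_false, Bool.false_or, Bool.and_eq_false_imp, decide_eq_true_eq,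
      Bool.not_eq_eq_eq_not, Bool.not_false]
    intro h
    rw [← b1, ← b2, h]
  · rw [Finset.card_image_of_injOn, Finset.card_range]
    intro i _ j _ hij
    have a1 := hr3 i
    have a2 := hr3 j
    simp only at hij
    omega

end Pool.Agent.Work.MP_54ee58_lc
end

-- merged part: Pool.Agent.Work.MP_54ee58_lc.Gadget
section
namespace Pool.Agent.Work.MP_54ee58_lc

open Finset

theorem card_filter_Ico (N a b : ℕ) (hb : b ≤ N) :
    (Finset.univ.filter (fun v : Fin N => a ≤ v.val ∧ v.val < b)).card = b - a := by
  rw [← Nat.card_Ico a b]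
  refine Finset.card_bij (fun v _ => v.val) ?_ ?_ ?_
  · intro v hv
    simpa using hv
  · intro v _ u _ h
    exact Fin.ext h
  · intro x hx
    have := Finset.mem_Ico.1 hx
    exact ⟨⟨x, by omega⟩, by simpa using this, rfl⟩

theorem card_le_of_Ico {N : ℕ} (I : Finset (Fin N)) (a b : ℕ)
    (h : ∀ v ∈ I, a ≤ v.val ∧ v.val < b) : I.card ≤ b - a := by
  rw [← Nat.card_Ico a b]
  refine Finset.card_le_card_of_injOn (fun v => v.val) ?_ ?_
  · intro v hv
    simpa using h v hv
  · intro v _ u _ h
    exact Fin.ext h

theorem indep_iff {N : ℕ} {f : ℕ → ℕ → Bool} {hs : ∀ a b, f a b = f b a}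
    {hi : ∀ a, f a a = false} (I : Finset (Fin N)) :
    (mkG N f hs hi).IsIndepSet (I : Set (Fin N)) ↔
      ∀ a ∈ I, ∀ b ∈ I, a ≠ b → f a.val b.val = false := by
  simp only [SimpleGraph.isIndepSet_iff, Set.Pairwise, Finset.mem_coe, mkG, Bool.not_eq_true]

theorem mem_nbhd {N : ℕ} {f : ℕ → ℕ → Bool} {hs : ∀ a b, f a b = f b a}
    {hi : ∀ a, f a a = false} (I : Finset (Fin N)) (v : Fin N) :
    v ∈ nbhd (mkG N f hs hi) I ↔ ∃ u ∈ I, f u.val v.val = true := by
  simp [nbhd, mkG]

theorem good_image {φ : CNF} {N : ℕ} (I : Finset (Fin N)) (h1 : ∀ v ∈ I, v.val < 3 * φ.length)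
    (h2 : ∀ a ∈ I, ∀ b ∈ I, a ≠ b → adjG φ a.val b.val = false) :
    Good φ (I.image Fin.val) ∧ (I.image Fin.val).card = I.card := by
  refine ⟨⟨?_, ?_⟩, Finset.card_image_of_injective _ Fin.val_injective⟩
  · intro a ha
    obtain ⟨v, hv, rfl⟩ := Finset.mem_image.1 ha
    exact h1 v hv
  · intro a ha b hb hne
    obtain ⟨v, hv, rfl⟩ := Finset.mem_image.1 ha
    obtain ⟨u, hu, rfl⟩ := Finset.mem_image.1 hb
    exact h2 v hv u hu (fun h => hne (congrArg _ h))

theorem card_filter_mem {N : ℕ} (T : Finset ℕ) (h : ∀ a ∈ T, a < N) :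
    (Finset.univ.filter (fun v : Fin N => v.val ∈ T)).card = T.card := by
  refine Finset.card_bij (fun v _ => v.val) ?_ ?_ ?_
  · intro v hv
    simpa using hv
  · intro v _ u _ h
    exact Fin.ext h
  · intro x hx
    exact ⟨⟨x, h x hx⟩, by simpa using hx, rfl⟩

/-! The gadget for NP-hardness: the literal graph joined with `m` isolated vertices. -/

def f1 (φ : CNF) (u v : ℕ) : Bool :=
  !decide (u = v) &&
    (if u < 3 * φ.length then (if v < 3 * φ.length then adjG φ u v else true)
      else decide (v < 3 * φ.length))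

theorem f1_symm (φ : CNF) (a b : ℕ) : f1 φ a b = f1 φ b a := by
  unfold f1
  by_cases h1 : a < 3 * φ.length <;> by_cases h2 : b < 3 * φ.length <;>
    simp [h1, h2, adjG_symm φ a b, eq_comm]

theorem f1_irr (φ : CNF) (a : ℕ) : f1 φ a a = false := by simp [f1]

theorem gadget1 (φ : CNF) (h3 : ∀ c ∈ φ, c.length = 3) :
    CoreEqNucleus (matBits (4 * φ.length) (f1 φ)) = true ↔ Sat φ := by
  classical
  rw [← adjBits_mkG _ _ (f1_symm φ) (f1_irr φ), coreEqNucleus_adjBits]
  set m := φ.length with hm
  set H := mkG (4 * m) (f1 φ) (f1_symm φ) (f1_irr φ) with hH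
  let C : Finset (Fin (4 * m)) := univ.filter (fun v => 3 * m ≤ v.val ∧ v.val < 4 * m)
  have hC : C.card = m := by rw [card_filter_Ico _ _ _ le_rfl]; omega
  have hCi : H.IsIndepSet (C : Set (Fin (4 * m))) := by
    rw [indep_iff]
    intro a ha b hb _
    have h1 : ¬ a.val < 3 * m := by have := (mem_filter.1 ha).2; omega
    have h2 : ¬ b.val < 3 * m := by have := (mem_filter.1 hb).2; omega
    simp [f1, ← hm, h1, h2]
  have hsplit : ∀ I : Finset (Fin (4 * m)), H.IsIndepSet (I : Set (Fin (4 * m))) →
      (Good φ (I.image Fin.val) ∧ (I.image Fin.val).card = I.card) ∨ I ⊆ C := by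
    intro I hI
    rw [indep_iff] at hI
    by_cases hA : ∀ v ∈ I, v.val < 3 * m
    · left
      refine good_image I hA (fun a ha b hb hne => ?_)
      have := hI a ha b hb hne
      have h1 : ¬ a.val = b.val := fun h => hne (Fin.ext h)
      simpa [f1, ← hm, hA a ha, hA b hb, h1] using this
    · right
      push Not at hA
      obtain ⟨v, hv, hv'⟩ := hA
      intro u hu
      refine mem_filter.2 ⟨mem_univ _, ?_, u.2⟩
      by_contra hc
      have hne : u ≠ v := by rintro rfl; omega
      have := hI u hu v hv hne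
      have h1 : ¬ u.val = v.val := fun h => hne (Fin.ext h)
      have h2 : u.val < 3 * m := by omega
      have h4 : ¬ v.val < 3 * m := by omega
      simp [f1, ← hm, h1, h2, h4] at this
  have hle : ∀ I : Finset (Fin (4 * m)), H.IsIndepSet (I : Set (Fin (4 * m))) → I.card ≤ m := by
    intro I hI
    rcases hsplit I hI with ⟨h1, h2⟩ | h
    · rw [← h2]; exact good_card_le h1
    · exact (card_le_card h).trans hC.le
  have hN : nucleus H = ∅ := by
    refine nucleus_eq_empty H (fun I hI ⟨v, hv⟩ => ?_)
    have h1 := hle I hI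
    have hv4 := v.2
    by_cases hA : v.val < 3 * m
    · let a : Fin (4 * m) := ⟨if v.val % 3 = 0 then v.val + 1 else v.val - 1, by
        split_ifs <;> omega⟩
      have ha1 : a.val < 3 * m := by simp only [a]; split_ifs <;> omega
      have ha2 : ¬ v.val = a.val := by simp only [a]; split_ifs <;> omega
      have ha3 : v.val / 3 = a.val / 3 := by simp only [a]; split_ifs <;> omega
      have hsub : insert a C ⊆ nbhd H I := by
        intro u hu
        rw [mem_nbhd]
        refine ⟨v, hv, ?_⟩
        rcases mem_insert.1 hu with rfl | hu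
        · simp [f1, ← hm, hA, ha1, ha2, adjG, ha3]
        · have h2 : ¬ u.val < 3 * m := by have := (mem_filter.1 hu).2; omega
          have h4 : ¬ v.val = u.val := by omega
          simp [f1, ← hm, hA, h2, h4]
      have := card_le_card hsub
      rw [card_insert_of_notMem (by simp only [C, mem_filter]; omega), hC] at this
      omega
    · have hsub : univ.filter (fun u : Fin (4 * m) => 0 ≤ u.val ∧ u.val < 3 * m) ⊆ nbhd H I := by
        intro u hu
        rw [mem_nbhd]
        refine ⟨v, hv, ?_⟩
        have h2 : u.val < 3 * m := (mem_filter.1 hu).2.2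
        have h4 : ¬ v.val = u.val := by omega
        simp [f1, ← hm, hA, h2, h4]
      have := card_le_card hsub
      rw [card_filter_Ico _ _ _ (by omega)] at this
      omega
  rw [hN]
  constructor
  · intro hcore
    by_contra hns
    have hm0 : 0 < m := by
      rcases Nat.eq_zero_or_pos m with h | h
      · exact absurd (good_sat h3 (T := ∅) ⟨by simp, by simp⟩ (by omega)) hns
      · exact h
    have : (⟨3 * m, by omega⟩ : Fin (4 * m)) ∈ core H := by
      intro S hS
      have h1 := hS.maximum C hCi
      rcases hsplit S hS.isIndepSet with ⟨h2, h4⟩ | h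
      · exact absurd (good_sat h3 h2 (by omega)) hns
      · rw [Finset.eq_of_subset_of_card_le h h1]
        simp only [C, mem_filter, mem_univ, true_and]
        omega
    rw [hcore] at this
    exact this
  · intro hs
    obtain ⟨T, hT, hTc⟩ := sat_good h3 hs
    let S : Finset (Fin (4 * m)) := univ.filter (fun v => v.val ∈ T)
    have hSc : S.card = m := by
      rw [card_filter_mem T (fun a ha => by have := hT.1 a ha; omega), hTc]
    refine core_eq_empty H S C ⟨?_, fun t ht => by rw [hSc]; exact hle t ht⟩
      ⟨hCi, fun t ht => by rw [hC]; exact hle t ht⟩ ?_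
    · rw [indep_iff]
      intro a ha b hb hne
      have h1 := (mem_filter.1 ha).2
      have h2 := (mem_filter.1 hb).2
      have h4 := hT.2 _ h1 _ h2 (fun h => hne (Fin.ext h))
      simp [f1, hT.1 _ h1, hT.1 _ h2, h4]
    · rw [Finset.disjoint_left]
      intro a ha ha'
      have h1 := hT.1 _ (mem_filter.1 ha).2
      have h2 := (mem_filter.1 ha').2
      omega

/-! The gadget for coNP-hardness. -/

def part2 (m u : ℕ) : ℕ := if u < 3 * m + 3 then 0 else if u < 4 * m + 5 then 1 else 2

def f2 (φ : CNF) (u v : ℕ) : Bool :=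
  !decide (u = v) &&
    (!decide (part2 φ.length u = part2 φ.length v) ||
      (decide (u < 3 * φ.length) && decide (v < 3 * φ.length) && adjG φ u v))

theorem f2_symm (φ : CNF) (a b : ℕ) : f2 φ a b = f2 φ b a := by
  unfold f2
  by_cases h1 : a < 3 * φ.length <;> by_cases h2 : b < 3 * φ.length <;>
    simp [h1, h2, adjG_symm φ a b, eq_comm]

theorem f2_irr (φ : CNF) (a : ℕ) : f2 φ a a = false := by simp [f2]

theorem gadget2 (φ : CNF) (h3 : ∀ c ∈ φ, c.length = 3) :
    CoreEqNucleus (matBits (5 * φ.length + 7) (f2 φ)) = true ↔ ¬ Sat φ := by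
  classical
  rw [← adjBits_mkG _ _ (f2_symm φ) (f2_irr φ), coreEqNucleus_adjBits]
  set m := φ.length with hm
  set H := mkG (5 * m + 7) (f2 φ) (f2_symm φ) (f2_irr φ) with hH
  let blk : ℕ → ℕ → Finset (Fin (5 * m + 7)) := fun a b =>
    univ.filter (fun v => a ≤ v.val ∧ v.val < b)
  have hblk : ∀ a b, b ≤ 5 * m + 7 → (blk a b).card = b - a := fun a b hb =>
    card_filter_Ico _ _ _ hb
  have hmem : ∀ a b v, v ∈ blk a b ↔ a ≤ v.val ∧ v.val < b := by
    intro a b v; simp [blk]
  have hadj : ∀ u v : Fin (5 * m + 7), part2 m u.val ≠ part2 m v.val → f2 φ u.val v.val = true := by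
    intro u v h
    have : ¬ u.val = v.val := fun e => h (by rw [e])
    simp [f2, ← hm, h, this]
  have hsame : ∀ I : Finset (Fin (5 * m + 7)), H.IsIndepSet (I : Set (Fin (5 * m + 7))) →
      ∀ u ∈ I, ∀ v ∈ I, part2 m u.val = part2 m v.val := by
    intro I hI u hu v hv
    rw [indep_iff] at hI
    by_contra hc
    have := hI u hu v hv (by rintro rfl; exact hc rfl)
    rw [hadj u v hc] at this
    cases this
  have hgood : ∀ I : Finset (Fin (5 * m + 7)), H.IsIndepSet (I : Set (Fin (5 * m + 7))) →
      Good φ ((I.filter (fun v => v.val < 3 * m)).image Fin.val) ∧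
        ((I.filter (fun v => v.val < 3 * m)).image Fin.val).card
          = (I.filter (fun v => v.val < 3 * m)).card := by
    intro I hI
    rw [indep_iff] at hI
    refine good_image _ (fun v hv => (mem_filter.1 hv).2) (fun a ha b hb hne => ?_)
    have := hI a (mem_filter.1 ha).1 b (mem_filter.1 hb).1 hne
    have h1 : ¬ a.val = b.val := fun h => hne (Fin.ext h)
    have h2 := (mem_filter.1 ha).2
    have h4 := (mem_filter.1 hb).2
    simp only [f2, ← hm, h1, h2, h4, decide_false, Bool.not_false, decide_true, Bool.and_self,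
      Bool.true_and, Bool.or_eq_false_iff] at this
    exact this.2
  -- shape of independent sets
  have hshape : ∀ I : Finset (Fin (5 * m + 7)), H.IsIndepSet (I : Set (Fin (5 * m + 7))) →
      (I ⊆ blk 0 (3 * m + 3) ∧ I.card = (I.filter (fun v => v.val < 3 * m)).card
        + (I.filter (fun v => ¬ v.val < 3 * m)).card ∧
        I.filter (fun v => ¬ v.val < 3 * m) ⊆ blk (3 * m) (3 * m + 3)) ∨ I.card ≤ m + 2 := by
    intro I hI
    rcases I.eq_empty_or_nonempty with rfl | ⟨v, hv⟩
    · right; simp
    have hs := hsame I hI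
    by_cases h1 : v.val < 3 * m + 3
    · left
      have : ∀ u ∈ I, u.val < 3 * m + 3 := by
        intro u hu
        have := hs u hu v hv
        simp only [part2] at this
        split_ifs at this <;> omega
      refine ⟨fun u hu => (hmem _ _ _).2 ⟨by omega, this u hu⟩,
        (card_filter_add_card_filter_not _).symm, fun u hu => (hmem _ _ _).2 ?_⟩
      have a := mem_filter.1 hu
      have := this u a.1
      omega
    · right
      by_cases h2 : v.val < 4 * m + 5
      · have := card_le_of_Ico I (3 * m + 3) (4 * m + 5) (fun u hu => by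
          have := hs u hu v hv
          simp only [part2] at this
          split_ifs at this <;> omega)
        omega
      · have := card_le_of_Ico I (4 * m + 5) (5 * m + 7) (fun u hu => by
          have := hs u hu v hv
          have := u.2
          simp only [part2] at *
          split_ifs at * <;> omega)
        omega
  have hle : ∀ I : Finset (Fin (5 * m + 7)), H.IsIndepSet (I : Set (Fin (5 * m + 7))) →
      I.card ≤ m + 3 := by
    intro I hI
    rcases hshape I hI with ⟨-, h2, h4⟩ | h
    · have a := card_le_card h4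
      rw [hblk _ _ (by omega)] at a
      obtain ⟨b, c⟩ := hgood I hI
      have := good_card_le b
      omega
    · omega
  have hN : nucleus H = ∅ := by
    refine nucleus_eq_empty H (fun I hI ⟨v, hv⟩ => ?_)
    have h1 := hle I hI
    have hv4 := v.2
    by_cases hA : v.val < 3 * m + 3
    · have hsub : blk (3 * m + 3) (5 * m + 7) ⊆ nbhd H I := by
        intro u hu
        rw [mem_nbhd]
        refine ⟨v, hv, hadj _ _ ?_⟩
        have := (hmem _ _ _).1 hu
        simp only [part2]
        split_ifs <;> omega
      have := card_le_card hsub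
      rw [hblk _ _ (by omega)] at this
      omega
    · by_cases hB : v.val < 4 * m + 5
      · have hsub : blk 0 (3 * m + 3) ∪ blk (4 * m + 5) (5 * m + 7) ⊆ nbhd H I := by
          intro u hu
          rw [mem_nbhd]
          refine ⟨v, hv, hadj _ _ ?_⟩
          simp only [mem_union, hmem] at hu
          simp only [part2]
          split_ifs <;> omega
        have := card_le_card hsub
        rw [card_union_of_disjoint (by
          rw [Finset.disjoint_left]; intro a h1 h2; rw [hmem] at h1 h2; omega),
          hblk _ _ (by omega), hblk _ _ (by omega)] at this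
        omega
      · have hsub : blk 0 (4 * m + 5) ⊆ nbhd H I := by
          intro u hu
          rw [mem_nbhd]
          refine ⟨v, hv, hadj _ _ ?_⟩
          have := (hmem _ _ _).1 hu
          simp only [part2]
          split_ifs <;> omega
        have := card_le_card hsub
        rw [hblk _ _ (by omega)] at this
        omega
  rw [hN]
  constructor
  · intro hcore hs
    obtain ⟨T, hT, hTc⟩ := sat_good h3 hs
    let S : Finset (Fin (5 * m + 7)) := univ.filter (fun v => v.val ∈ T) ∪ blk (3 * m) (3 * m + 3)
    have hSc : S.card = m + 3 := by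
      rw [card_union_of_disjoint, card_filter_mem T (fun a ha => by have := hT.1 a ha; omega), hTc,
        hblk _ _ (by omega)]
      · omega
      · rw [Finset.disjoint_left]
        intro a h1 h2
        have := hT.1 _ (mem_filter.1 h1).2
        rw [hmem] at h2
        omega
    have hSi : H.IsIndepSet (S : Set (Fin (5 * m + 7))) := by
      rw [indep_iff]
      intro a ha b hb hne
      have key : ∀ c ∈ S, c.val < 3 * m + 3 ∧ (c.val < 3 * m → c.val ∈ T) := by
        intro c hc
        rcases mem_union.1 hc with h | h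
        · have := hT.1 _ (mem_filter.1 h).2
          exact ⟨by omega, fun _ => (mem_filter.1 h).2⟩
        · rw [hmem] at h
          exact ⟨h.2, fun _ => by omega⟩
      obtain ⟨a1, a2⟩ := key a ha
      obtain ⟨b1, b2⟩ := key b hb
      by_cases h1 : a.val < 3 * m
      · by_cases h2 : b.val < 3 * m
        · have h4 := hT.2 _ (a2 h1) _ (b2 h2) (fun h => hne (Fin.ext h))
          simp [f2, ← hm, part2, a1, b1, h4]
        · simp [f2, ← hm, part2, a1, b1, h2]
      · simp [f2, ← hm, part2, a1, b1, h1]
    have : (⟨3 * m, by omega⟩ : Fin (5 * m + 7)) ∈ core H := by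
      intro I hI
      have h1 := hI.maximum S hSi
      rcases hshape I hI.isIndepSet with ⟨-, h2, h4⟩ | h
      · obtain ⟨b, c⟩ := hgood I hI.isIndepSet
        have := good_card_le b
        have h5 := Finset.eq_of_subset_of_card_le h4 (by rw [hblk _ _ (by omega)]; omega)
        have h6 : (⟨3 * m, by omega⟩ : Fin (5 * m + 7)) ∈ blk (3 * m) (3 * m + 3) := by
          rw [hmem]; simp
        rw [← h5] at h6
        exact (mem_filter.1 h6).1
      · omega
    rw [hcore] at this
    exact this
  · intro hns
    have hle2 : ∀ I : Finset (Fin (5 * m + 7)), H.IsIndepSet (I : Set (Fin (5 * m + 7))) →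
        I.card ≤ m + 2 := by
      intro I hI
      rcases hshape I hI with ⟨-, h2, h4⟩ | h
      · have a := card_le_card h4
        rw [hblk _ _ (by omega)] at a
        obtain ⟨b, c⟩ := hgood I hI
        by_contra hc
        exact hns (good_sat h3 b (by omega))
      · exact h
    have hind : ∀ a b, 3 * m ≤ a → (∀ u v, a ≤ u → u < b → a ≤ v → v < b → part2 m u = part2 m v) →
        H.IsIndepSet (blk a b : Set (Fin (5 * m + 7))) := by
      intro a b h1 h2
      rw [indep_iff]
      intro u hu v hv _
      rw [hmem] at hu hv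
      have h4 : ¬ u.val < 3 * m := by omega
      simp [f2, ← hm, h2 _ _ hu.1 hu.2 hv.1 hv.2, h4]
    refine core_eq_empty H (blk (3 * m + 3) (4 * m + 5)) (blk (4 * m + 5) (5 * m + 7))
      ⟨hind _ _ (by omega) ?_, fun t ht => ?_⟩ ⟨hind _ _ (by omega) ?_, fun t ht => ?_⟩ ?_
    · intro u v a b c d
      simp only [part2]
      split_ifs <;> omega
    · rw [hblk _ _ (by omega)]
      have := hle2 t ht
      omega
    · intro u v a b c d
      simp only [part2]
      split_ifs <;> omega
    · rw [hblk _ _ (by omega)]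
      have := hle2 t ht
      omega
    · rw [Finset.disjoint_left]
      intro a h1 h2
      rw [hmem] at h1 h2
      omega

end Pool.Agent.Work.MP_54ee58_lc
end

-- merged part: Pool.Agent.Work.MP_54ee58_lc.Eff
section
namespace Pool.Agent.Work.MP_54ee58_lc

open Pool.Agent.Lib.Cx

@[fun_prop] theorem ls_lit : LS (fun p : CNF × ℕ => lit p.1 p.2) := by unfold lit; fun_prop
@[fun_prop] theorem ls_adjG : LS (fun p : CNF × ℕ × ℕ => adjG p.1 p.2.1 p.2.2) := by
  unfold adjG; fun_prop
@[fun_prop] theorem ls_part2 : LS (fun p : ℕ × ℕ => part2 p.1 p.2) := by unfold part2; fun_prop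

theorem ls_gadget1 : LS (fun φ : CNF => matBits (4 * φ.length) (f1 φ)) := by
  unfold matBits f1; fun_prop

theorem ls_gadget2 : LS (fun φ : CNF => matBits (5 * φ.length + 7) (f2 φ)) := by
  unfold matBits f2; fun_prop

end Pool.Agent.Work.MP_54ee58_lc
end
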